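import Mathlib

/-!
# The topology `t₁^Z` need not be regular when `Z` is regular

`Y` is the Arens–Fort space and `Z` the discrete two-point space.
-/

namespace Pool.Agent.Results.MP_150402_gt.ArensFort

open Set Topology TopologicalSpace

section Definitions

variable (Y Z : Type*) [TopologicalSpace Y] [TopologicalSpace Z]

/-- `𝒪_Z(Y)`: the preimages of open subsets of `Z` under continuous maps. -/
def OZ : Set (Set Y) := {W | ∃ (f : C(Y, Z)) (U : Set Z), IsOpen U ∧ W = f ⁻¹' U}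

variable {Y Z} in
/-- `(ℍ, U)`. -/
def pre (ℍ : Set (Set Y)) (U : Set Z) : Set C(Y, Z) := {f | f ⁻¹' U ∈ ℍ}

/-- `Z`-Scott open families of open subsets of `Y`. -/
def ZScottOpen (ℍ : Set (Set Y)) : Prop :=
  (∀ W ∈ ℍ, IsOpen W) ∧ (∀ W ∈ ℍ, W ∈ OZ Y Z → ∀ V, IsOpen V → W ⊆ V → V ∈ ℍ) ∧
    ∀ 𝒲 ⊆ OZ Y Z, ⋃₀ 𝒲 ∈ ℍ → ∃ ℱ ⊆ 𝒲, ℱ.Finite ∧ ⋃₀ ℱ ∈ ℍ

/-- Scott open families of open subsets of `Y`. -/
def ScottOpen (ℍ : Set (Set Y)) : Prop :=
  (∀ W ∈ ℍ, IsOpen W) ∧ (∀ W ∈ ℍ, ∀ V, IsOpen V → W ⊆ V → V ∈ ℍ) ∧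
    ∀ 𝒲 : Set (Set Y), (∀ W ∈ 𝒲, IsOpen W) → ⋃₀ 𝒲 ∈ ℍ → ∃ ℱ ⊆ 𝒲, ℱ.Finite ∧ ⋃₀ ℱ ∈ ℍ

/-- The topology `t₁^Z` on `C(Y, Z)`. -/
abbrev t1Z : TopologicalSpace C(Y, Z) :=
  generateFrom {S | ∃ ℍ U, ZScottOpen Y Z ℍ ∧ IsOpen U ∧ S = pre ℍ U}

/-- The Isbell topology on `C(Y, Z)`. -/
abbrev tIs : TopologicalSpace C(Y, Z) :=
  generateFrom {S | ∃ ℍ U, ScottOpen Y ℍ ∧ IsOpen U ∧ S = pre ℍ U}

end Definitions

/-! ### The Arens–Fort space -/

/-- The set `(ω × ω) ∪ {∞}`. -/
def AF : Type := Option (ℕ × ℕ)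

/-- The points of `ω × ω` are isolated; a neighbourhood of `∞` contains all but finitely many
points of almost every column. -/
instance : TopologicalSpace AF where
  IsOpen G := (none : Option (ℕ × ℕ)) ∈ G →
    ∃ N : ℕ, ∀ n ≥ N, {m : ℕ | (some (n, m) : Option (ℕ × ℕ)) ∉ G}.Finite
  isOpen_univ := fun _ => ⟨0, fun n _ => (Set.finite_empty).subset fun m hm => (hm trivial).elim⟩
  isOpen_inter := by
    intro G H hG hH h
    obtain ⟨k, hk⟩ := hG h.1
    obtain ⟨l, hl⟩ := hH h.2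
    refine ⟨max k l, fun n hn => ((hk n (le_trans (le_max_left _ _) hn)).union
      (hl n (le_trans (le_max_right _ _) hn))).subset ?_⟩
    intro m hm
    by_contra hc
    simp only [mem_union, mem_ofPred_eq, not_or, not_not] at hc
    exact hm hc
  isOpen_sUnion := by
    rintro 𝒢 h ⟨G, hG, hn⟩
    obtain ⟨k, hk⟩ := h G hG hn
    exact ⟨k, fun n hn => (hk n hn).subset fun m hm hG' => hm ⟨G, hG, hG'⟩⟩

/-- The points. -/
def pt (n m : ℕ) : AF := some (n, m)
def infty : AF := (none : Option (ℕ × ℕ))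

lemma isOpen_def {G : Set AF} :
    IsOpen G ↔ (infty ∈ G → ∃ N : ℕ, ∀ n ≥ N, {m : ℕ | pt n m ∉ G}.Finite) := Iff.rfl

lemma isOpen_of_notMem {G : Set AF} (h : infty ∉ G) : IsOpen G := fun h' => absurd h' h

lemma pt_ne (n m : ℕ) : pt n m ≠ infty := by
  intro h
  cases h

/-- The part `{n} × a` of the `n`-th column. -/
def col (n : ℕ) (a : Set ℕ) : Set AF := {y | ∃ m ∈ a, y = pt n m}

lemma infty_notMem_col (n : ℕ) (a : Set ℕ) : infty ∉ col n a := by
  rintro ⟨m, -, h⟩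
  exact pt_ne n m h.symm

lemma pt_mem_col {n m k : ℕ} {a : Set ℕ} : pt n m ∈ col k a ↔ n = k ∧ m ∈ a := by
  constructor
  · rintro ⟨l, hl, h⟩
    have h1 : (n, m) = (k, l) := Option.some.inj h
    simp only [Prod.mk.injEq] at h1
    exact ⟨h1.1, h1.2 ▸ hl⟩
  · rintro ⟨rfl, hm⟩
    exact ⟨m, hm, rfl⟩

lemma isOpen_compl_col (n : ℕ) (a : Set ℕ) : IsOpen (col n a)ᶜ := by
  rw [isOpen_def]
  intro _
  refine ⟨n + 1, fun k hk => ?_⟩
  have : {m : ℕ | pt k m ∉ (col n a)ᶜ} = ∅ := by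
    ext m
    simp only [mem_compl_iff, not_not, mem_ofPred_eq, mem_empty_iff_false, iff_false, pt_mem_col]
    omega
  rw [this]
  exact finite_empty

instance : T4Space AF where
  t1 := by
    intro x
    rcases x with _ | ⟨n, m⟩
    · rw [← isOpen_compl_iff]
      exact isOpen_of_notMem fun h => h rfl
    · rw [← isOpen_compl_iff]
      have : ({pt n m} : Set AF) = col n {m} := by
        ext y
        simp [col]
      show IsOpen ({pt n m} : Set AF)ᶜ
      rw [this]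
      exact isOpen_compl_col _ _
  normal := by
    intro s t hs ht hst
    by_cases h : infty ∈ s
    · have h' : infty ∉ t := fun h' => (hst.le_bot ⟨h, h'⟩)
      exact ⟨tᶜ, t, ht.isOpen_compl, isOpen_of_notMem h',
        hst.subset_compl_right, subset_rfl, disjoint_compl_left⟩
    · exact ⟨s, sᶜ, isOpen_of_notMem h, hs.isOpen_compl, subset_rfl,
        hst.subset_compl_left, disjoint_compl_right⟩

instance : Countable AF := inferInstanceAs (Countable (Option (ℕ × ℕ)))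

/-! ### Functions with values in the two-point space -/

/-- The function which is `false` exactly on the set `{n} × a`. -/
noncomputable def ch (n : ℕ) (a : Set ℕ) : C(AF, Bool) where
  toFun y := by classical exact decide (y ∉ col n a)
  continuous_toFun := by
    classical
    rw [continuous_discrete_rng]
    intro b
    cases b
    · have : (fun y : AF => decide (y ∉ col n a)) ⁻¹' {false} = col n a := by
        ext y
        simp
      rw [this]
      exact isOpen_of_notMem (infty_notMem_col _ _)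
    · have : (fun y : AF => decide (y ∉ col n a)) ⁻¹' {true} = (col n a)ᶜ := by
        ext y
        simp
      rw [this]
      exact isOpen_compl_col _ _

lemma ch_true (n : ℕ) (a : Set ℕ) : ch n a ⁻¹' {true} = (col n a)ᶜ := by
  ext y
  simp [ch]

lemma ch_false (n : ℕ) (a : Set ℕ) : ch n a ⁻¹' {false} = col n a := by
  ext y
  simp [ch]

/-- The constant function `true`. -/
def one : C(AF, Bool) := ContinuousMap.const AF true

lemma one_true : one ⁻¹' {true} = univ := by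
  ext y
  simp [one]

lemma mem_OZ {W : Set AF} (h1 : IsOpen W) (h2 : IsOpen Wᶜ) : W ∈ OZ AF Bool := by
  classical
  refine ⟨⟨fun y => decide (y ∈ W), ?_⟩, {true}, isOpen_discrete _, ?_⟩
  · rw [continuous_discrete_rng]
    intro b
    cases b
    · have : (fun y : AF => decide (y ∈ W)) ⁻¹' {false} = Wᶜ := by
        ext y
        simp
      rw [this]
      exact h2
    · have : (fun y : AF => decide (y ∈ W)) ⁻¹' {true} = W := by
        ext y
        simp
      rw [this]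
      exact h1
  · ext y
    simp

lemma col_mem_OZ (n : ℕ) (a : Set ℕ) : col n a ∈ OZ AF Bool :=
  mem_OZ (isOpen_of_notMem (infty_notMem_col _ _)) (isOpen_compl_col _ _)

lemma bool_cases (U : Set Bool) : U = ∅ ∨ U = {false} ∨ U = {true} ∨ U = univ := by
  by_cases h1 : true ∈ U
  · by_cases h2 : false ∈ U
    · right; right; right
      apply eq_univ_of_forall
      intro b
      cases b <;> assumption
    · right; right; left
      ext b
      cases b <;> simp [h1, h2]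
  · by_cases h2 : false ∈ U
    · right; left
      ext b
      cases b <;> simp [h1, h2]
    · left
      ext b
      cases b <;> simp [h1, h2]

/-! ### The two properties of open sets -/

/-- Sets which contain, if they contain the constant function, almost all functions of each
sequence `ch n (a n)` with `a n` finite. -/
def P1 (O : Set C(AF, Bool)) : Prop :=
  one ∈ O → ∀ a : ℕ → Finset ℕ, ∃ k, ∀ n ≥ k, ch n (a n) ∈ O

/-- Sets which contain, with the function `ch n ℕ`, the functions `ch n a` for all large finite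
sets `a`. -/
def P2 (n : ℕ) (O : Set C(AF, Bool)) : Prop :=
  ch n univ ∈ O → ∃ a₀ : Finset ℕ, ∀ a : Finset ℕ, a₀ ⊆ a → ch n a ∈ O

lemma P1_generate {𝒮 : Set (Set C(AF, Bool))} (h : ∀ S ∈ 𝒮, P1 S) {O : Set C(AF, Bool)}
    (hO : @IsOpen _ (generateFrom 𝒮) O) : P1 O := by
  induction hO with
  | basic s hs => exact h s hs
  | univ => exact fun _ _ => ⟨0, fun _ _ => mem_univ _⟩
  | inter s t _ _ ihs iht =>
    intro h1 a
    obtain ⟨k, hk⟩ := ihs h1.1 a
    obtain ⟨l, hl⟩ := iht h1.2 a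
    exact ⟨max k l, fun n hn => ⟨hk n (le_trans (le_max_left _ _) hn),
      hl n (le_trans (le_max_right _ _) hn)⟩⟩
  | sUnion 𝒯 _ ih =>
    rintro ⟨s, hs, h1⟩ a
    obtain ⟨k, hk⟩ := ih s hs h1 a
    exact ⟨k, fun n hn => ⟨s, hs, hk n hn⟩⟩

lemma P2_generate {n : ℕ} {𝒮 : Set (Set C(AF, Bool))} (h : ∀ S ∈ 𝒮, P2 n S)
    {O : Set C(AF, Bool)} (hO : @IsOpen _ (generateFrom 𝒮) O) : P2 n O := by
  classical
  induction hO with
  | basic s hs => exact h s hs
  | univ => exact fun _ => ⟨∅, fun _ _ => mem_univ _⟩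
  | inter s t _ _ ihs iht =>
    intro h1
    obtain ⟨a, ha⟩ := ihs h1.1
    obtain ⟨b, hb⟩ := iht h1.2
    exact ⟨a ∪ b, fun c hc => ⟨ha c (Finset.union_subset_left hc),
      hb c (Finset.union_subset_right hc)⟩⟩
  | sUnion 𝒯 _ ih =>
    rintro ⟨s, hs, h1⟩
    obtain ⟨a, ha⟩ := ih s hs h1
    exact ⟨a, fun c hc => ⟨s, hs, ha c hc⟩⟩

lemma preimage_open (f : C(AF, Bool)) (U : Set Bool) : IsOpen (f ⁻¹' U) :=
  (isOpen_discrete U).preimage f.continuous

lemma P1_pre {ℍ : Set (Set AF)} (h : ZScottOpen AF Bool ℍ) (U : Set Bool) : P1 (pre ℍ U) := by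
  obtain ⟨-, hup, hc⟩ := h
  intro h1 a
  rcases bool_cases U with rfl | rfl | rfl | rfl
  · have h2 : (∅ : Set AF) ∈ ℍ := by simpa [pre] using h1
    exact ⟨0, fun n _ => by simpa [pre] using h2⟩
  · have h2 : (∅ : Set AF) ∈ ℍ := by
      have : one ⁻¹' {false} = ∅ := by
        ext y
        simp [one]
      rw [← this]
      exact h1
    have h3 : (∅ : Set AF) ∈ OZ AF Bool := mem_OZ isOpen_empty (by simp)
    exact ⟨0, fun n _ => hup ∅ h2 h3 _ (preimage_open _ _) (empty_subset _)⟩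
  · have h2 : (univ : Set AF) ∈ ℍ := by
      rw [← one_true]
      exact h1
    let W : ℕ → Set AF := fun k => {y | ∀ n ≥ k, y ∉ col n (a n)}
    have hWmono : ∀ k l, k ≤ l → W k ⊆ W l := fun k l hkl y hy n hn => hy n (hkl.trans hn)
    have hWc : ∀ k, W k ∈ OZ AF Bool := by
      intro k
      apply mem_OZ
      · rw [isOpen_def]
        intro _
        refine ⟨0, fun n _ => ((a n).finite_toSet).subset ?_⟩
        intro m hm
        simp only [W, mem_ofPred_eq, not_forall, not_not] at hm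
        obtain ⟨n', -, h⟩ := hm
        rw [pt_mem_col] at h
        rw [h.1]
        exact h.2
      · apply isOpen_of_notMem
        intro h
        exact h fun n _ => infty_notMem_col _ _
    have hWu : ⋃₀ (range W) = univ := by
      apply eq_univ_of_forall
      rintro (_ | ⟨n, m⟩)
      · exact ⟨W 0, mem_range_self _, fun n _ => infty_notMem_col _ _⟩
      · refine ⟨W (n + 1), mem_range_self _, fun k hk h => ?_⟩
        have := (pt_mem_col.1 h).1
        omega
    obtain ⟨ℱ, hℱ, hfin, hmem⟩ := hc (range W) (by rintro _ ⟨k, rfl⟩; exact hWc k)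
      (by rw [hWu]; exact h2)
    -- the finite union is contained in some `W k`
    obtain ⟨k, hk⟩ : ∃ k, ⋃₀ ℱ ⊆ W k := by
      have h4 : ∀ F ∈ ℱ, ∃ k, W k = F := fun F hF => hℱ hF
      choose! c hc using h4
      obtain ⟨k, hk⟩ := (hfin.image c).bddAbove
      refine ⟨k, ?_⟩
      rintro y ⟨F, hF, hy⟩
      rw [← hc F hF] at hy
      exact hWmono _ _ (hk ⟨F, hF, rfl⟩) hy
    refine ⟨k, fun n hn => ?_⟩
    have h5 : ⋃₀ ℱ ∈ OZ AF Bool := by
      apply mem_OZ
      · exact isOpen_sUnion fun F hF => by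
          obtain ⟨l, rfl⟩ := hℱ hF
          obtain ⟨f, U, hU, hfU⟩ := hWc l
          rw [hfU]
          exact preimage_open f U
      · rw [isOpen_compl_iff, Set.sUnion_eq_biUnion]
        refine hfin.isClosed_biUnion fun F hF => ?_
        obtain ⟨l, rfl⟩ := hℱ hF
        obtain ⟨f, U, hU, hfU⟩ := hWc l
        rw [hfU]
        exact (isClosed_discrete U).preimage f.continuous
    refine hup _ hmem h5 _ (preimage_open _ _) ?_
    rw [ch_true]
    intro y hy
    exact hk hy n hn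
  · exact ⟨0, fun n _ => h1⟩

lemma P2_pre {ℍ : Set (Set AF)} (h : ZScottOpen AF Bool ℍ) (U : Set Bool) (n : ℕ) :
    P2 n (pre ℍ U) := by
  classical
  obtain ⟨-, hup, hc⟩ := h
  intro h1
  rcases bool_cases U with rfl | rfl | rfl | rfl
  · have h2 : (∅ : Set AF) ∈ ℍ := by simpa [pre] using h1
    exact ⟨∅, fun a _ => by simpa [pre] using h2⟩
  · have h2 : col n univ ∈ ℍ := by
      rw [← ch_false]
      exact h1
    have h3 : ⋃₀ (range fun m => col n {m}) = col n univ := by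
      ext y
      constructor
      · rintro ⟨_, ⟨m, rfl⟩, m', rfl, rfl⟩
        exact ⟨_, trivial, rfl⟩
      · rintro ⟨m, -, rfl⟩
        exact ⟨_, ⟨m, rfl⟩, m, rfl, rfl⟩
    obtain ⟨ℱ, hℱ, hfin, hmem⟩ := hc (range fun m => col n {m})
      (by rintro _ ⟨m, rfl⟩; exact col_mem_OZ _ _) (by rw [h3]; exact h2)
    have h4 : ∀ F ∈ ℱ, ∃ m, col n {m} = F := fun F hF => hℱ hF
    choose! c hc using h4
    have h5 : ⋃₀ ℱ ∈ OZ AF Bool := by
      have : ⋃₀ ℱ = col n (c '' ℱ) := by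
        ext y
        constructor
        · rintro ⟨F, hF, hy⟩
          rw [← hc F hF] at hy
          obtain ⟨m, hm, rfl⟩ := hy
          rw [mem_singleton_iff] at hm
          exact ⟨m, ⟨F, hF, hm.symm⟩, rfl⟩
        · rintro ⟨m, ⟨F, hF, rfl⟩, rfl⟩
          refine ⟨F, hF, ?_⟩
          have : pt n (c F) ∈ col n {c F} := ⟨_, rfl, rfl⟩
          rwa [hc F hF] at this
      rw [this]
      exact col_mem_OZ _ _
    refine ⟨hfin.toFinset.image c, fun a ha => hup _ hmem h5 _ (preimage_open _ _) ?_⟩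
    rw [ch_false]
    rintro y ⟨F, hF, hy⟩
    rw [← hc F hF] at hy
    obtain ⟨m, hm, rfl⟩ := hy
    rw [mem_singleton_iff] at hm
    refine ⟨m, ha (Finset.mem_image.2 ⟨F, hfin.mem_toFinset.2 hF, hm.symm⟩), rfl⟩
  · have h2 : (col n univ)ᶜ ∈ ℍ := by
      rw [← ch_true]
      exact h1
    have h3 : (col n univ)ᶜ ∈ OZ AF Bool :=
      mem_OZ (isOpen_compl_col _ _) (by
        rw [compl_compl]
        exact isOpen_of_notMem (infty_notMem_col _ _))
    refine ⟨∅, fun a _ => hup _ h2 h3 _ (preimage_open _ _) ?_⟩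
    rw [ch_true]
    apply compl_subset_compl.2
    rintro y ⟨m, -, rfl⟩
    exact ⟨m, trivial, rfl⟩
  · exact ⟨∅, fun a _ => h1⟩

/-- The family of the neighbourhoods of `∞` which meet all columns. -/
def HH : Set (Set AF) := {V | IsOpen V ∧ infty ∈ V ∧ ∀ n, ∃ m, pt n m ∈ V}

lemma HH_scott : ScottOpen AF HH := by
  refine ⟨fun W hW => hW.1, fun W hW V hV hWV => ⟨hV, hWV hW.2.1, fun n => ?_⟩, ?_⟩
  · obtain ⟨m, hm⟩ := hW.2.2 n
    exact ⟨m, hWV hm⟩
  · rintro 𝒲 h𝒲 ⟨-, ⟨W0, hW0, hinf⟩, hcols⟩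
    obtain ⟨N, hN⟩ := isOpen_def.1 (h𝒲 W0 hW0) hinf
    have h1 : ∀ n, ∃ W ∈ 𝒲, ∃ m, pt n m ∈ W := by
      intro n
      obtain ⟨m, W, hW, hm⟩ := hcols n
      exact ⟨W, hW, m, hm⟩
    choose W hW m hm using h1
    have hsub : insert W0 (W '' Iio N) ⊆ 𝒲 := by
      rintro _ (rfl | ⟨n, -, rfl⟩)
      · exact hW0
      · exact hW n
    refine ⟨insert W0 (W '' Iio N), hsub, ((finite_Iio N).image W).insert W0,
      isOpen_sUnion fun V hV => h𝒲 V (hsub hV), ⟨W0, mem_insert _ _, hinf⟩, fun n => ?_⟩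
    by_cases hn : n < N
    · exact ⟨m n, W n, mem_insert_of_mem _ ⟨n, hn, rfl⟩, hm n⟩
    · have h2 := hN n (not_lt.1 hn)
      have h3 : ∃ k, k ∉ {m : ℕ | pt n m ∉ W0} := by
        by_contra hc
        push Not at hc
        rw [eq_univ_of_forall hc] at h2
        exact infinite_univ h2
      obtain ⟨k, hk⟩ := h3
      exact ⟨k, W0, mem_insert _ _, not_not.1 hk⟩

lemma ScottOpen.zScottOpen {ℍ : Set (Set AF)} (h : ScottOpen AF ℍ) : ZScottOpen AF Bool ℍ :=
  ⟨h.1, fun W hW _ => h.2.1 W hW, fun 𝒲 h𝒲 hu => h.2.2 𝒲 (fun W hW => by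
    obtain ⟨f, U, -, rfl⟩ := h𝒲 hW
    exact preimage_open f U) hu⟩

lemma not_regular {𝒮 : Set (Set C(AF, Bool))}
    (h : ∀ S ∈ 𝒮, ∃ ℍ U, ZScottOpen AF Bool ℍ ∧ S = pre ℍ U) (hmem : pre HH {true} ∈ 𝒮) :
    ¬ @RegularSpace C(AF, Bool) (generateFrom 𝒮) := by
  intro hreg
  let : TopologicalSpace C(AF, Bool) := generateFrom 𝒮
  have : RegularSpace C(AF, Bool) := hreg
  have hopen : IsOpen (pre HH ({true} : Set Bool)) := isOpen_generateFrom_of_mem hmem
  have hone : one ∉ (pre HH ({true} : Set Bool))ᶜ := by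
    simp only [mem_compl_iff, not_not]
    show one ⁻¹' {true} ∈ HH
    rw [one_true]
    exact ⟨isOpen_univ, trivial, fun n => ⟨0, trivial⟩⟩
  obtain ⟨O', O, hO', hO, hsub, h1, hdisj⟩ : ∃ O' O : Set C(AF, Bool), IsOpen O' ∧ IsOpen O ∧
      (pre HH ({true} : Set Bool))ᶜ ⊆ O' ∧ one ∈ O ∧ Disjoint O' O := by
    have := (regularSpace_iff _).1 hreg hopen.isClosed_compl hone
    rw [Filter.disjoint_iff] at this
    obtain ⟨s, hs, t, ht, hst⟩ := this
    obtain ⟨u, hu, huo, hus⟩ := mem_nhdsSet_iff_exists.1 hs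
    obtain ⟨v, hv, hvo, hvt⟩ := mem_nhds_iff.1 ht
    exact ⟨u, v, hu, hvo, huo, hvt, hst.mono hus hv⟩
  have h2 : ∀ n, ∃ a : Finset ℕ, ch n a ∈ O' := by
    intro n
    have h3 : ch n univ ∈ O' := by
      apply hsub
      intro h4
      obtain ⟨-, -, h5⟩ : ch n univ ⁻¹' {true} ∈ HH := h4
      obtain ⟨m, hm⟩ := h5 n
      rw [ch_true] at hm
      exact hm ⟨m, trivial, rfl⟩
    obtain ⟨a, ha⟩ := P2_generate (n := n) (fun S hS => by
      obtain ⟨ℍ, U, hℍ, rfl⟩ := h S hS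
      exact P2_pre hℍ U n) hO' h3
    exact ⟨a, ha a subset_rfl⟩
  choose a ha using h2
  obtain ⟨k, hk⟩ := P1_generate (fun S hS => by
      obtain ⟨ℍ, U, hℍ, rfl⟩ := h S hS
      exact P1_pre hℍ U) hO h1 a
  exact hdisj.le_bot ⟨ha k, hk k le_rfl⟩

/-- **Theorem.** There are a countable normal Hausdorff space `Y` (the Arens–Fort space) and a
finite discrete space `Z` such that neither `t₁^Z` nor the Isbell topology on `C(Y, Z)` is
regular. -/
theorem result : ∃ (Y Z : Type) (_ : TopologicalSpace Y) (_ : TopologicalSpace Z),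
    Countable Y ∧ T4Space Y ∧ Finite Z ∧ DiscreteTopology Z ∧ RegularSpace Z ∧
      ¬ @RegularSpace C(Y, Z) (t1Z Y Z) ∧ ¬ @RegularSpace C(Y, Z) (tIs Y Z) := by
  refine ⟨AF, Bool, inferInstance, inferInstance, inferInstance, inferInstance, inferInstance,
    inferInstance, inferInstance, ?_, ?_⟩
  · refine not_regular ?_ ⟨HH, {true}, HH_scott.zScottOpen, isOpen_discrete _, rfl⟩
    rintro S ⟨ℍ, U, hℍ, -, rfl⟩
    exact ⟨ℍ, U, hℍ, rfl⟩
  · refine not_regular ?_ ⟨HH, {true}, HH_scott, isOpen_discrete _, rfl⟩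
    rintro S ⟨ℍ, U, hℍ, -, rfl⟩
    exact ⟨ℍ, U, hℍ.zScottOpen, rfl⟩

end Pool.Agent.Results.MP_150402_gt.ArensFort
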